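import Pool.Agent.X39.Near.Ax
import Pool.Agent.X39.Near.Var

/-!
# The numbers `ζ (α p)`, `℘ (α p)`, `p`, `℘ (p)` for ALL points `p` with `ζ (p)` algebraic and close to any number outside a
# set of dimension zero

Let `L` be a lattice. The question is whether `α p ∉ L` and `ζ (α p)` is transcendental, if `g₂`, `g₃`, `ζ (p)` and `α` are
algebraic, `α ≠ 0, ± 1` (with exceptions for `g₂ g₃ = 0`). We prove, outside ONE set `E` of complex numbers of Hausdorff
dimension `0` (for all `α`, number fields, degrees and scales), for all points `p₀` with `℘ (p₀) ≠ 0` and `ζ (p₀) ∉ E`: for ALL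
points `p` close to `p₀` for which `ζ (p)` is algebraic, in a given number field, and close to `ζ (p₀)`, and all algebraic
`α_1, …, α_m` such that `1, α_1, …, α_m` are linearly independent over the ring of the `c` with `c L ⊆ L` (for `m = 1`:
`α ∉ k`), we have `α_j p ∉ L`, and the `2 m + 2` numbers `p`, `℘ (p)`, `℘ (α_j p)`, `ζ (α_j p)` satisfy no relation of bounded
degree with coefficients of polynomial size, even approximately; the coefficients may be polynomials in arbitrary constants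
`ξ_1, …, ξ_g` fixed in advance (for instance `g₂`, `g₃`, periods and quasi-periods). In particular nonzero integral
polynomials `P` of degree at most `d` and of height at most `T ^ A` satisfy `|P (ζ (α p))| > T ^ (-B)`, where `T` bounds the
height of `ζ (p)`.

Proof: the functions `z`, `℘ (z)`, `ζ (z)`, `℘ (α_j z)`, `ζ (α_j z)` are algebraically independent (Ax); in the variable
`t = ζ (z)` the levels of the library give, on compact sets, at most `C T ^ ε` exceptional `t` of height `T`, for every `ε > 0`,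
and so a limsup set of dimension `0` (`Pool.Agent.X39.Near`); the countably many systems `α` are treated at the same time.
-/

set_option autoImplicit false

open MvPolynomial NumberField
open scoped PeriodPair

namespace Pool.Agent.Results.MP_0c15f2_nt.ApproximationsOfAllNumbers

open Pool.Agent.X39.Near (Size Dep)

/-- the Weierstrass zeta function of the lattice `L` (the term of `l = 0` is `1 / z`) -/
noncomputable def zeta (L : PeriodPair) (z : ℂ) : ℂ := ∑' l : L.lattice, (1 / (z - l) + 1 / l + z / l ^ 2)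

/-- the numbers `p`, `℘ (p)`, `℘ (α_j p)`, `ζ (α_j p)` -/
noncomputable def value {m : ℕ} (L : PeriodPair) (α : Fin m → ℂ) (p : ℂ) : Fin 2 ⊕ (Fin m ⊕ Fin m) → ℂ
  | Sum.inl i => ![p, ℘[L] p] i
  | Sum.inr (Sum.inl j) => ℘[L] (α j * p)
  | Sum.inr (Sum.inr j) => zeta L (α j * p)

/-- The `α_j` are algebraic, and `1, α_1, …, α_m` are linearly independent over the ring of the complex numbers `c` with
`c L ⊆ L`. -/
structure Multiples {m : ℕ} (L : PeriodPair) (α : Fin m → ℂ) : Prop where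
  alg : ∀ j, IsAlgebraic ℚ (α j)
  ind : ∀ (c₀ : ℂ) (c : Fin m → ℂ), (∀ l ∈ L.lattice, c₀ * l ∈ L.lattice) →
    (∀ j, ∀ l ∈ L.lattice, c j * l ∈ L.lattice) → c₀ + ∑ j, c j * α j = 0 → c₀ = 0 ∧ c = 0

/-- There is no relation between the numbers `v`: (1) in the sense of `Dep`, (2) for integral polynomials. -/
def NoRelation {J : Type} {g : ℕ} (v : J → ℂ) (ξ : Fin g → ℂ) (F : Type) [Field F] [NumberField F] (ι : F →+* ℂ)
    (d A : ℕ) (B T : ℝ) : Prop :=
  ¬ Dep v ξ F ι d A B T ∧
  ∀ P : MvPolynomial J ℤ, P ≠ 0 → (∀ j, P.degreeOf j ≤ d) →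
    (∀ e, |((P.coeff e : ℤ) : ℝ)| ≤ T ^ A) → T ^ (-B) < ‖aeval v P‖

/-- the directions `1, α_1, …, α_m` -/
def dir {m : ℕ} (α : Fin m → ℂ) : Fin (m + 1) → ℂ := Fin.cons 1 α

theorem dir_ind {m : ℕ} {L : PeriodPair} {α : Fin m → ℂ} (h : Multiples L α) (c : Fin (m + 1) → ℂ)
    (hc : ∀ j, ∀ l ∈ L.lattice, c j * l ∈ L.lattice) (h0 : ∑ j, c j * dir α j = 0) : c = 0 := by
  rw [Fin.sum_univ_succ] at h0
  simp only [dir, Fin.cons_zero, Fin.cons_succ, mul_one] at h0
  obtain ⟨h1, h2⟩ := h.ind (c 0) (fun j => c j.succ) (hc 0) (fun j => hc _) h0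
  funext j
  refine Fin.cases h1 (fun j => congrFun h2 j) j

theorem dir_ne {m : ℕ} {L : PeriodPair} {α : Fin m → ℂ} (h : Multiples L α) (j : Fin (m + 1)) : dir α j ≠ 0 := by
  classical
  intro h0
  have h1 := dir_ind h (Pi.single j 1) (fun i l hl => by
    by_cases hij : i = j
    · rw [hij, Pi.single_eq_same, one_mul]
      exact hl
    · rw [Pi.single_eq_of_ne hij, zero_mul]
      exact zero_mem _) (by
    rw [Finset.sum_eq_single j]
    · rw [h0, mul_zero]
    · intro i _ hij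
      rw [Pi.single_eq_of_ne hij, zero_mul]
    · intro hcon
      exact absurd (Finset.mem_univ j) hcon)
  have h2 := congrFun h1 j
  rw [Pi.single_eq_same] at h2
  exact one_ne_zero h2

/-- the domain -/
def domain {n : ℕ} (L : PeriodPair) (b : Fin n → ℂ) : Set ℂ := {z | ∀ j, b j * z ∉ L.lattice}

theorem lattice_countable (L : PeriodPair) : (L.lattice : Set ℂ).Countable := by
  have h0 : Countable L.lattice := L.latticeEquivProd.toEquiv.countable_iff.2 inferInstance
  exact h0.to_set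

theorem countable_compl {n : ℕ} {L : PeriodPair} {b : Fin n → ℂ} (hb : ∀ j, b j ≠ 0) : (domain L b)ᶜ.Countable := by
  have h1 : (domain L b)ᶜ ⊆ ⋃ j, (fun l : ℂ => l / b j) '' (L.lattice : Set ℂ) := by
    intro z hz
    rw [domain, Set.mem_compl_iff, Set.mem_ofPred_eq] at hz
    push Not at hz
    obtain ⟨j, hj⟩ := hz
    refine Set.mem_iUnion.2 ⟨j, b j * z, hj, ?_⟩
    exact mul_div_cancel_left₀ z (hb j)
  exact (Set.countable_iUnion fun j => (lattice_countable L).image _).mono h1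

theorem domain_open {n : ℕ} (L : PeriodPair) (b : Fin n → ℂ) : IsOpen (domain L b) := by
  have h1 : domain L b = ⋂ j, (fun z => b j * z) ⁻¹' ((L.lattice : Set ℂ)ᶜ) := by
    ext z
    simp [domain]
  rw [h1]
  exact isOpen_iInter_of_finite fun j => L.isClosed_lattice.isOpen_compl.preimage (continuous_const.mul continuous_id)

theorem domain_conn {n : ℕ} {L : PeriodPair} {b : Fin n → ℂ} (hb : ∀ j, b j ≠ 0) : IsConnected (domain L b) := by
  have h1 := (countable_compl (L := L) hb).isPathConnected_compl_of_one_lt_rank (by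
    rw [Complex.rank_real_complex]
    exact Cardinal.one_lt_two)
  rw [compl_compl] at h1
  exact h1.isConnected

theorem fx {m : ℕ} {L : PeriodPair} {α : Fin m → ℂ} (h : Multiples L α) :
    Pool.Agent.Y776.Cv.FxM (domain L (dir α)) (fun _ : Fin 1 => L) (fun _ : Fin (m + 1) => (0 : Fin 1))
      (fun j z => dir α j * z) (fun i : Fin 0 => i.elim0) where
  isOpen := domain_open L _
  conn := (domain_conn (dir_ne h)).isPreconnected
  ni := fun c c' hcc => absurd (Subsingleton.elim c c') hcc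
  ua := fun j z _ => analyticAt_const.mul analyticAt_id
  un := fun j z hz => hz j
  ui := by
    intro c w β hw _ hsum
    refine dir_ind h w hw ?_
    obtain ⟨z, hz⟩ := (domain_conn (L := L) (dir_ne h)).nonempty
    have hzU := (domain_open L (dir α)).mem_nhds hz
    have hev : ∀ᶠ y in nhds z, (∑ j, w j * dir α j) * y = β := by
      filter_upwards [hzU] with y hy
      rw [← hsum y hy, Finset.sum_mul]
      exact Finset.sum_congr rfl fun j _ => by ring
    have hd : HasDerivAt (fun y : ℂ => (∑ j, w j * dir α j) * y) (∑ j, w j * dir α j) z := by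
      simpa using (hasDerivAt_id z).const_mul (∑ j, w j * dir α j)
    have hd0 : HasDerivAt (fun y : ℂ => (∑ j, w j * dir α j) * y) 0 z :=
      (hasDerivAt_const z β).congr_of_eventuallyEq hev
    exact hd.unique hd0
  la := fun i => i.elim0
  li := fun m _ _ => funext fun i => i.elim0

/-- the functions `℘ (b_j z)`, `ζ (b_j z)` -/
noncomputable def ys {n : ℕ} (L : PeriodPair) (b : Fin n → ℂ) : Fin n ⊕ Fin n → ℂ → ℂ
  | Sum.inl j, z => ℘[L] (b j * z)
  | Sum.inr j, z => zeta L (b j * z)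

theorem ys_an {m : ℕ} {L : PeriodPair} {α : Fin m → ℂ} (h : Multiples L α) (k) :
    AnalyticOnNhd ℂ (ys L (dir α) k) (domain L (dir α)) := by
  rcases k with j | j
  · exact Pool.Agent.Y776.Cv.yf_an (fx h) (Sum.inr (Sum.inr (Sum.inr (Sum.inr j))))
  · exact Pool.Agent.Y776.Cv.yf_an (fx h) (Sum.inr (Sum.inr (Sum.inr (Sum.inl j))))

theorem ys_ind {m : ℕ} {L : PeriodPair} {α : Fin m → ℂ} (h : Multiples L α) :
    ∀ t ∈ domain L (dir α), Pool.Agent.Y124.LocInd (ys L (dir α)) t := by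
  refine Pool.Agent.X39.Near.loc_fix (fx h) (by omega) (domain_conn (dir_ne h)).nonempty (ys_an h) (by
    simp only [Fintype.card_sum, Fintype.card_fin]
    ring) (G := Set.range (dir α)) (Set.countable_range _) ?_
  intro F hF z _ k
  rcases k with i | i | j | j | j
  · exact i.elim0
  · exact i.elim0
  · exact mul_mem (Pool.Agent.Y685.base_clo (hF ⟨j, rfl⟩)) (Pool.Agent.Y685.subset_clo (Set.mem_insert _ _))
  · exact Pool.Agent.Y685.subset_clo (Or.inr ⟨Sum.inr j, rfl⟩)
  · exact Pool.Agent.Y685.subset_clo (Or.inr ⟨Sum.inl j, rfl⟩)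

/-- the exchange of the variables -/
def sw {m : ℕ} : Option (Fin 2 ⊕ (Fin m ⊕ Fin m)) → Option (Fin (m + 1) ⊕ Fin (m + 1))
  | none => some (Sum.inr 0)
  | some (Sum.inl i) => ![none, some (Sum.inl 0)] i
  | some (Sum.inr (Sum.inl j)) => some (Sum.inl j.succ)
  | some (Sum.inr (Sum.inr j)) => some (Sum.inr j.succ)

theorem sw_inj {m : ℕ} : Function.Injective (sw (m := m)) := by
  have h2 : ∀ i : Fin 2, (i = 0 ∧ sw (m := m) (some (Sum.inl i)) = none) ∨
      (i = 1 ∧ sw (m := m) (some (Sum.inl i)) = some (Sum.inl 0)) := by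
    intro i
    fin_cases i
    · exact Or.inl ⟨rfl, rfl⟩
    · exact Or.inr ⟨rfl, rfl⟩
  have key : ∀ x y : Option (Fin 2 ⊕ (Fin m ⊕ Fin m)), sw x = sw y → x = y := by
    intro x y hxy
    rcases x with _ | i | j | j <;> rcases y with _ | i' | j' | j'
    · rfl
    · rcases h2 i' with ⟨_, h⟩ | ⟨_, h⟩ <;> rw [h] at hxy <;> simp [sw] at hxy
    · simp [sw] at hxy
    · simp only [sw, Option.some.injEq, Sum.inr.injEq] at hxy
      exact absurd hxy.symm (Fin.succ_ne_zero _)
    · rcases h2 i with ⟨_, h⟩ | ⟨_, h⟩ <;> rw [h] at hxy <;> simp [sw] at hxy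
    · rcases h2 i with ⟨hi, h⟩ | ⟨hi, h⟩ <;> rcases h2 i' with ⟨hi', h'⟩ | ⟨hi', h'⟩ <;> rw [h, h'] at hxy
      · rw [hi, hi']
      · simp at hxy
      · simp at hxy
      · rw [hi, hi']
    · rcases h2 i with ⟨_, h⟩ | ⟨_, h⟩ <;> rw [h] at hxy
      · simp [sw] at hxy
      · simp only [sw, Option.some.injEq, Sum.inl.injEq] at hxy
        exact absurd hxy.symm (Fin.succ_ne_zero _)
    · rcases h2 i with ⟨_, h⟩ | ⟨_, h⟩ <;> rw [h] at hxy <;> simp [sw] at hxy
    · simp [sw] at hxy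
    · rcases h2 i' with ⟨_, h⟩ | ⟨_, h⟩ <;> rw [h] at hxy
      · simp [sw] at hxy
      · simp only [sw, Option.some.injEq, Sum.inl.injEq] at hxy
        exact absurd hxy (Fin.succ_ne_zero _)
    · simp only [sw, Option.some.injEq, Sum.inl.injEq, Fin.succ_inj] at hxy
      rw [hxy]
    · simp [sw] at hxy
    · simp only [sw, Option.some.injEq, Sum.inr.injEq] at hxy
      exact absurd hxy (Fin.succ_ne_zero _)
    · rcases h2 i' with ⟨_, h⟩ | ⟨_, h⟩ <;> rw [h] at hxy <;> simp [sw] at hxy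
    · simp [sw] at hxy
    · simp only [sw, Option.some.injEq, Sum.inr.injEq, Fin.succ_inj] at hxy
      rw [hxy]
  exact fun x y h => key x y h

theorem sw_eval {m : ℕ} (L : PeriodPair) (α : Fin m → ℂ) (z : ℂ) (o : Option (Fin 2 ⊕ (Fin m ⊕ Fin m))) :
    (sw o).elim z (fun k => ys L (dir α) k z) = o.elim (zeta L z) fun k => value L α z k := by
  rcases o with _ | i | j | j
  · show zeta L (1 * z) = zeta L z
    rw [one_mul]
  · fin_cases i
    · rfl
    · show ℘[L] (1 * z) = ℘[L] z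
      rw [one_mul]
  · rfl
  · rfl

/-- the index set -/
def Ix : Type := Σ m : ℕ, (Fin m → {z : ℂ // IsAlgebraic ℚ z}) × (ℕ × ℕ)

instance : Countable Ix := by
  have : Countable {z : ℂ // IsAlgebraic ℚ z} := (Algebraic.countable ℚ ℂ).to_subtype
  unfold Ix
  infer_instance

/-- balls -/
noncomputable def bl (i : ℕ × ℕ) : Set ℂ := Metric.ball (TopologicalSpace.denseSeq ℂ i.1) (1 / ((i.2 : ℝ) + 1))

/-- the good points -/
def good (L : PeriodPair) : Set ℂ := {z | z ∉ L.lattice ∧ ℘[L] z ≠ 0}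

theorem good_open (L : PeriodPair) : IsOpen (good L) := by
  rw [isOpen_iff_mem_nhds]
  rintro z ⟨h1, h2⟩
  have h3 : ContinuousAt (fun z => ℘[L] z) z := by
    have := Pool.Agent.Y776.Cv.yf_an (fx (L := L) (α := Fin.elim0) ⟨fun j => j.elim0, fun c₀ c _ _ h => ⟨by simpa using h,
      funext fun j => j.elim0⟩⟩) (Sum.inr (Sum.inr (Sum.inr (Sum.inr 0)))) z (fun j => by
        refine Fin.cases ?_ (fun i => i.elim0) j
        show 1 * z ∉ L.lattice
        rwa [one_mul])
    refine this.continuousAt.congr (Filter.Eventually.of_forall fun w => ?_)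
    show ℘[L] (1 * w) = ℘[L] w
    rw [one_mul]
  filter_upwards [L.isClosed_lattice.isOpen_compl.mem_nhds h1, h3.eventually_ne h2] with w hw1 hw2
  exact ⟨hw1, hw2⟩

theorem zeta_der (L : PeriodPair) {z : ℂ} (hz : z ∉ L.lattice) : HasDerivAt (zeta L) (-℘[L] z) z :=
  H667R3.hasDerivAt_zeta L hz

theorem zeta_an (L : PeriodPair) {z : ℂ} (hz : z ∉ L.lattice) : AnalyticAt ℂ (zeta L) z := by
  have h1 : DifferentiableOn ℂ (zeta L) (L.lattice : Set ℂ)ᶜ := fun w hw =>
    (zeta_der L hw).differentiableAt.differentiableWithinAt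
  exact h1.analyticAt (L.isClosed_lattice.isOpen_compl.mem_nhds hz)

/-- **Theorem.** Let `L` be a lattice and `ξ_1, …, ξ_g` complex numbers. There is a set `E` of complex numbers of Hausdorff
dimension `0` such that for all `p₀ ∉ L` with `℘ (p₀) ≠ 0` and `ζ (p₀) ∉ E` there is `δ > 0` such that for all algebraic numbers
`α_1, …, α_m` such that `1, α_1, …, α_m` are linearly independent over the ring of the `c` with `c L ⊆ L`, all number fields
`F` with an embedding `ι` in `ℂ`, all `d`, `A` and `ω > 0` there are `B`, `T₁` such that for all `T ≥ T₁`, all `t ∈ F`,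
quotients of integers with conjugates at most `T`, with `|ι t - ζ (p₀)| ≤ T ^ (-ω)`, and all `p` with `ζ (p) = ι t` and
`|p - p₀| < δ`: `α_j p ∉ L` for all `j`, and there is no relation between the numbers `p`, `℘ (p)`, `℘ (α_j p)`,
`ζ (α_j p)`. -/
theorem result {g : ℕ} (L : PeriodPair) (ξ : Fin g → ℂ) :
    ∃ E : Set ℂ, dimH E = 0 ∧ ∀ p₀ : ℂ, p₀ ∉ L.lattice → ℘[L] p₀ ≠ 0 → zeta L p₀ ∉ E → ∃ δ : ℝ, 0 < δ ∧
      ∀ (m : ℕ) (α : Fin m → ℂ), Multiples L α →
      ∀ (F : Type) [Field F] [NumberField F] (ι : F →+* ℂ) (d A : ℕ) (ω : ℝ), 0 < ω → ∃ B T₁ : ℝ, ∀ T : ℝ, T₁ ≤ T →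
        ∀ t : F, Size F T t → ‖ι t - zeta L p₀‖ ≤ T ^ (-ω) → ∀ p : ℂ, zeta L p = ι t → ‖p - p₀‖ < δ →
          (∀ j, α j * p ∉ L.lattice) ∧ NoRelation (value L α p) ξ F ι d A B T := by
  classical
  have H : ∀ i : Ix, ∃ E : Set ℂ, dimH E = 0 ∧ (Multiples L (fun j => (i.2.1 j : ℂ)) → bl i.2.2 ⊆ good L →
      Set.InjOn (zeta L) (bl i.2.2) → ∀ s₀ ∈ bl i.2.2 ∩ domain L (dir fun j => (i.2.1 j : ℂ)), zeta L s₀ ∉ E →
      ∀ (F : Type) [Field F] [NumberField F] (ι : F →+* ℂ) (d A : ℕ) (ω : ℝ), 0 < ω → ∃ B T₁ : ℝ, ∀ T : ℝ, T₁ ≤ T →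
        ∀ t : F, Size F T t → ‖ι t - zeta L s₀‖ ≤ T ^ (-ω) →
          ∀ s ∈ bl i.2.2 ∩ domain L (dir fun j => (i.2.1 j : ℂ)), zeta L s = ι t →
          ¬ Dep (value L (fun j => (i.2.1 j : ℂ)) s) ξ F ι d A B T) := by
    intro i
    by_cases hi : Multiples L (fun j => (i.2.1 j : ℂ)) ∧ bl i.2.2 ⊆ good L ∧ Set.InjOn (zeta L) (bl i.2.2)
    · obtain ⟨hM, hG, hI⟩ := hi
      obtain ⟨E, h1, h2⟩ := Pool.Agent.X39.Near.near_inj
        (V := bl i.2.2 ∩ domain L (dir fun j => (i.2.1 j : ℂ))) (Metric.isOpen_ball.inter (domain_open L _))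
        (φ := zeta L) (fun z hz => zeta_an L (hG hz.1).1) (hI.mono Set.inter_subset_left)
        (fun z hz => by
          rw [(zeta_der L (hG hz.1).1).deriv]
          exact neg_ne_zero.2 (hG hz.1).2) (fun k z => value L (fun j => (i.2.1 j : ℂ)) z k) (fun k z hz => by
          rcases k with k | j | j
          · fin_cases k
            · exact analyticAt_id
            · refine (ys_an hM (Sum.inl 0) z hz.2).congr (Filter.Eventually.of_forall fun w => ?_)
              show ℘[L] (1 * w) = ℘[L] w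
              rw [one_mul]
          · exact ys_an hM (Sum.inl j.succ) z hz.2
          · exact ys_an hM (Sum.inr j.succ) z hz.2) (fun s₀ hs₀ P hP => by
          apply rename_injective _ (sw_inj (m := i.1))
          rw [map_zero]
          apply ys_ind hM s₀ hs₀.2
          filter_upwards [hP] with s hs
          rw [eval_rename, ← hs]
          congr 2
          funext o
          exact sw_eval L _ s o) ξ
      exact ⟨E, h1, fun _ _ _ => h2⟩
    · exact ⟨∅, dimH_empty, fun a b c => absurd ⟨a, b, c⟩ hi⟩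
  choose E hE0 hE using H
  -- the points with a multiple in the lattice
  set N : Set ℂ := (fun q : {z : ℂ // IsAlgebraic ℚ z} × L.lattice => zeta L ((q.2 : ℂ) / (q.1 : ℂ))) '' Set.univ with hN
  have hNc : N.Countable := by
    have h1 : Countable {z : ℂ // IsAlgebraic ℚ z} := (Algebraic.countable ℚ ℂ).to_subtype
    have h2 : Countable L.lattice := L.latticeEquivProd.toEquiv.countable_iff.2 inferInstance
    exact Set.countable_univ.image _
  refine ⟨(⋃ i, E i) ∪ N, by rw [dimH_union, dimH_iUnion, hNc.dimH_zero]; simp [hE0], fun p₀ hp₀ hp₀' hx => ?_⟩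
  obtain ⟨a, b, hab, hsub, hinj⟩ := Pool.Agent.X39.Near.exists_ball_inj (good_open L) (φ := zeta L) (s₀ := p₀)
    ⟨hp₀, hp₀'⟩ (zeta_an L hp₀) (by rw [(zeta_der L hp₀).deriv]; exact neg_ne_zero.2 hp₀')
  obtain ⟨δ, hδ, hδb⟩ := Metric.isOpen_iff.1 (Metric.isOpen_ball (x := TopologicalSpace.denseSeq ℂ a)
    (ε := 1 / ((b : ℝ) + 1))) p₀ hab
  refine ⟨δ, hδ, fun m α hα F _ _ ι d A ω hω => ?_⟩
  have hdom : p₀ ∈ domain L (dir α) := by
    intro j hj
    apply hx
    refine Or.inr ⟨(⟨dir α j, ?_⟩, ⟨dir α j * p₀, hj⟩), Set.mem_univ _, ?_⟩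
    · exact Fin.cases isAlgebraic_one (fun j => hα.alg j) j
    · show zeta L (dir α j * p₀ / dir α j) = zeta L p₀
      rw [mul_div_cancel_left₀ _ (dir_ne hα j)]
  obtain ⟨B, T₁, h2⟩ := hE ⟨m, fun j => ⟨α j, hα.alg j⟩, (a, b)⟩ hα hsub hinj p₀ ⟨hab, hdom⟩
    (fun h => hx (Or.inl (Set.mem_iUnion.2 ⟨_, h⟩))) F ι d A ω hω
  obtain ⟨T₂, h3⟩ := Pool.Agent.X39.Near.mem_of_close (V := bl (a, b))
    (W := bl (a, b) ∩ domain L (dir α)) (φ := zeta L) (fun z hz => zeta_an L (hsub hz).1)
    (fun z hz => by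
      rw [(zeta_der L (hsub hz).1).deriv]
      exact neg_ne_zero.2 (hsub hz).2) hinj Set.inter_subset_left (Metric.isOpen_ball.inter (domain_open L _))
    (s₀ := p₀) ⟨hab, hdom⟩ hω
  refine ⟨B, max (max T₁ T₂) 1, fun T hT t ht htx p hp hpp => ?_⟩
  have hpb : p ∈ bl (a, b) := hδb (by rwa [Metric.mem_ball, dist_eq_norm])
  have hpW := h3 T (((le_max_right _ _).trans (le_max_left _ _)).trans hT) p hpb (by rwa [hp])
  have h4 : ¬ Dep (value L α p) ξ F ι d A B T :=
    h2 T (((le_max_left _ _).trans (le_max_left _ _)).trans hT) t ht htx p hpW hp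
  have hT0 : 0 < T := lt_of_lt_of_le one_pos ((le_max_right _ _).trans hT)
  exact ⟨fun j => hpW.2 j.succ, h4, fun P hP hPd hPA => Pool.Agent.X39.Near.int_of_not_dep h4 hT0 P hP hPd fun e => by
      exact_mod_cast hPA e⟩

end Pool.Agent.Results.MP_0c15f2_nt.ApproximationsOfAllNumbers
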